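import Pool.Agent.W986.DW.Arith

/-!
The Diophantine problem of `⟨a, b, x, y ∣ (ax·bx·ay·bx·ax)² = 1⟩` is undecidable: the monoid
`⟨a, b, x, y ∣ ax = bx = ay = 1⟩` is a retract.
-/

set_option autoImplicit false

namespace Pool.Agent.W986.DW

open Pool.Agent.H176R3.OneRel.Df

/-! ### the retract -/

/-- the congruence of `ax = bx = ay = 1` -/
def cgN : Con (FreeMonoid (Fin 4)) :=
  conGen (fun u v : FreeMonoid (Fin 4) => (u = FreeMonoid.of 0 * FreeMonoid.of 2 ∨
    u = FreeMonoid.of 1 * FreeMonoid.of 2 ∨ u = FreeMonoid.of 0 * FreeMonoid.of 3) ∧ v = 1)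

/-- the presentation -/
def presN : Pres cgN.Quotient where
  a := cgN.mk' (FreeMonoid.of 0)
  b := cgN.mk' (FreeMonoid.of 1)
  x := cgN.mk' (FreeMonoid.of 2)
  y := cgN.mk' (FreeMonoid.of 3)
  ax := by
    rw [← map_mul, ← map_one cgN.mk']
    exact (Con.eq cgN).2 (ConGen.Rel.of _ _ ⟨Or.inl rfl, rfl⟩)
  bx := by
    rw [← map_mul, ← map_one cgN.mk']
    exact (Con.eq cgN).2 (ConGen.Rel.of _ _ ⟨Or.inr (Or.inl rfl), rfl⟩)
  ay := by
    rw [← map_mul, ← map_one cgN.mk']
    exact (Con.eq cgN).2 (ConGen.Rel.of _ _ ⟨Or.inr (Or.inr rfl), rfl⟩)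
  ind := by
    intro P h1 ha hb hx hy hm u
    obtain ⟨u, rfl⟩ := Con.mk'_surjective (c := cgN) u
    induction u using FreeMonoid.inductionOn' with
    | one => rw [map_one]; exact h1
    | of_mul i u ih =>
      rw [map_mul]
      refine hm _ _ ?_ ih
      fin_cases i
      · exact ha
      · exact hb
      · exact hx
      · exact hy
  lift := by
    intro T _ a' b' x' y' h1 h2 h3
    let f : FreeMonoid (Fin 4) →* T := FreeMonoid.lift ![a', b', x', y']
    have hf : cgN ≤ Con.ker f := by
      refine Con.conGen_le.2 ?_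
      rintro u v ⟨hu, rfl⟩
      rw [Con.ker_rel]
      rcases hu with rfl | rfl | rfl
      · simpa [f] using h1
      · simpa [f] using h2
      · simpa [f] using h3
    refine ⟨Con.lift cgN f hf, ?_, ?_, ?_, ?_⟩
    all_goals
      rw [Con.lift_mk']
      simp [f]

/-- the generators of the retract -/
def genN (i : Fin 4) : cgN.Quotient := cgN.mk' (FreeMonoid.of i)

theorem satN_not_computable : ¬ ComputablePred (Sat genN) :=
  sat_not_computable (presN.arith (gen := genN) (ia := 0) (ib := 1) (ix := 2) (iy := 3)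
    rfl rfl rfl rfl)

/-! ### units -/

section units
variable {M : Type} [Monoid M] (c d e : M)

/-- the palindrome -/
def pal : M := c * d * e * d * c

variable {c d e}

theorem pal1 (h : pal c d e * pal c d e = 1) : c * (d * e * d * c * pal c d e) = 1 := by
  rw [← h]
  simp only [pal, mul_assoc]

theorem pal1' (h : pal c d e * pal c d e = 1) : (pal c d e * c * d * e * d) * c = 1 := by
  rw [← h]
  simp only [pal, mul_assoc]

theorem pal2 (h : pal c d e * pal c d e = 1) : (c * pal c d e * c * d * e) * d = 1 := by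
  have h1 : ((c * pal c d e * c * d * e) * d) * c = c := by
    have : ((c * pal c d e * c * d * e) * d) * c = c * (pal c d e * pal c d e) := by
      simp only [pal, mul_assoc]
    rw [this, h, mul_one]
  calc (c * pal c d e * c * d * e) * d
      = ((c * pal c d e * c * d * e) * d) * (c * (d * e * d * c * pal c d e)) := by
        rw [pal1 h, mul_one]
    _ = (((c * pal c d e * c * d * e) * d) * c) * (d * e * d * c * pal c d e) := by
        simp only [mul_assoc]
    _ = 1 := by rw [h1, pal1 h]

theorem pal3 (h : pal c d e * pal c d e = 1) : (e * d * c * pal c d e * c) * d = 1 := by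
  have h1 : d * (e * d * c * pal c d e * c) = 1 := by
    have h2 : c * (d * (e * d * c * pal c d e * c)) = c := by
      have : c * (d * (e * d * c * pal c d e * c)) = (pal c d e * pal c d e) * c := by
        simp only [pal, mul_assoc]
      rw [this, h, one_mul]
    calc d * (e * d * c * pal c d e * c)
        = ((pal c d e * c * d * e * d) * c) * (d * (e * d * c * pal c d e * c)) := by
          rw [pal1' h, one_mul]
      _ = (pal c d e * c * d * e * d) * (c * (d * (e * d * c * pal c d e * c))) := by
          rw [mul_assoc]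
      _ = 1 := by rw [h2, pal1' h]
  have h3 : e * d * c * pal c d e * c = c * pal c d e * c * d * e := by
    calc e * d * c * pal c d e * c
        = ((c * pal c d e * c * d * e) * d) * (e * d * c * pal c d e * c) := by
          rw [pal2 h, one_mul]
      _ = (c * pal c d e * c * d * e) * (d * (e * d * c * pal c d e * c)) := by
          rw [mul_assoc]
      _ = c * pal c d e * c * d * e := by rw [h1, mul_one]
  rw [h3, pal2 h]

end units

/-! ### the one-relator monoid -/

/-- the word `ax·bx·ay·bx·ax` -/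
def w : List (Fin 4) := [0, 2, 1, 2, 0, 3, 1, 2, 0, 2]

/-- the congruence of `w ^ 2 = 1` -/
def cgM : Con (FreeMonoid (Fin 4)) :=
  conGen (fun u v : FreeMonoid (Fin 4) => u = (FreeMonoid.ofList w) ^ 2 ∧ v = 1)

/-- the generators -/
def genM (i : Fin 4) : cgM.Quotient := cgM.mk' (FreeMonoid.of i)

/-- translation of the generators of the retract -/
def T : Fin 4 → List (Fin 4) :=
  ![[0],
    -- c * (c * W * c * d * e) * b
    [0, 2] ++ ([0, 2] ++ w ++ [0, 2] ++ [1, 2] ++ [0, 3]) ++ [1],
    -- x * (d * e * d * c * W)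
    [2] ++ ([1, 2] ++ [0, 3] ++ [1, 2] ++ [0, 2] ++ w),
    -- y * (d * c * W * c * d)
    [3] ++ ([1, 2] ++ [0, 2] ++ w ++ [0, 2] ++ [1, 2])]

/-- value of a word in a monoid -/
def val {M : Type} [Monoid M] (gen : Fin 4 → M) (t : List (Fin 4)) : M := (t.map gen).prod

theorem val_append {M : Type} [Monoid M] (gen : Fin 4 → M) (s t : List (Fin 4)) :
    val gen (s ++ t) = val gen s * val gen t := by
  simp [val]

theorem val_w {M : Type} [Monoid M] (gen : Fin 4 → M) :
    val gen w = pal (gen 0 * gen 2) (gen 1 * gen 2) (gen 0 * gen 3) := by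
  simp [val, w, pal, mul_assoc]

theorem mk_ofList (t : List (Fin 4)) : cgM.mk' (FreeMonoid.ofList t) = val genM t := by
  induction t with
  | nil => rfl
  | cons i t ih =>
    rw [FreeMonoid.ofList_cons, map_mul, ih]
    simp [val, genM]

theorem relM : pal (genM 0 * genM 2) (genM 1 * genM 2) (genM 0 * genM 3) *
    pal (genM 0 * genM 2) (genM 1 * genM 2) (genM 0 * genM 3) = 1 := by
  rw [← val_w, ← mk_ofList, ← map_mul, ← pow_two, ← map_one cgM.mk']
  exact (Con.eq cgM).2 (ConGen.Rel.of _ _ ⟨rfl, rfl⟩)

theorem T_ax : val genM (T 0) * val genM (T 2) = 1 := by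
  have := pal1 relM
  simp only [T, Matrix.cons_val_zero, Matrix.cons_val, val_append, val_w]
  simp only [val, List.map_cons, List.map_nil, List.prod_cons, List.prod_nil, mul_one,
    mul_assoc] at this ⊢
  exact this

theorem T_bx : val genM (T 1) * val genM (T 2) = 1 := by
  have e1 := pal1 relM
  have e2 := pal2 relM
  have : val genM (T 1) * val genM (T 2) =
      (genM 0 * genM 2) * (((genM 0 * genM 2) *
        pal (genM 0 * genM 2) (genM 1 * genM 2) (genM 0 * genM 3) * (genM 0 * genM 2) *
        (genM 1 * genM 2) * (genM 0 * genM 3)) * (genM 1 * genM 2)) *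
      ((genM 1 * genM 2) * (genM 0 * genM 3) * (genM 1 * genM 2) * (genM 0 * genM 2) *
        pal (genM 0 * genM 2) (genM 1 * genM 2) (genM 0 * genM 3)) := by
    simp only [T, Matrix.cons_val, Matrix.cons_val_one, val_append, val_w]
    simp only [val, List.map_cons, List.map_nil, List.prod_cons, List.prod_nil, mul_one,
      mul_assoc]
  rw [this, e2, mul_one, e1]

theorem T_ay : val genM (T 0) * val genM (T 3) = 1 := by
  have e3 := pal3 relM
  simp only [T, Matrix.cons_val_zero, Matrix.cons_val, val_append, val_w]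
  simp only [val, List.map_cons, List.map_nil, List.prod_cons, List.prod_nil, mul_one,
    mul_assoc] at e3 ⊢
  exact e3

theorem exists_s : ∃ s : cgN.Quotient →* cgM.Quotient, ∀ i, s (genN i) = val genM (T i) := by
  obtain ⟨s, h0, h1, h2, h3⟩ := presN.lift (val genM (T 0)) (val genM (T 1)) (val genM (T 2))
    (val genM (T 3)) T_ax T_bx T_ay
  refine ⟨s, ?_⟩
  intro i
  fin_cases i
  · exact h0
  · exact h1
  · exact h2
  · exact h3

theorem exists_r : ∃ r : cgM.Quotient →* cgN.Quotient, ∀ i, r (genM i) = genN i := by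
  let f : FreeMonoid (Fin 4) →* cgN.Quotient := FreeMonoid.lift genN
  have hw : f (FreeMonoid.ofList w) = 1 := by
    have h1 : f (FreeMonoid.ofList w) = val genN w := by
      simp [f, val, FreeMonoid.lift_apply]
    have e1 : genN 0 * genN 2 = 1 := presN.ax
    have e2 : genN 1 * genN 2 = 1 := presN.bx
    have e3 : genN 0 * genN 3 = 1 := presN.ay
    rw [h1, val_w, e1, e2, e3]
    simp [pal]
  have hf : cgM ≤ Con.ker f := by
    refine Con.conGen_le.2 ?_
    rintro u v ⟨rfl, rfl⟩
    rw [Con.ker_rel, map_pow, hw, one_pow, map_one]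
  refine ⟨Con.lift cgM f hf, ?_⟩
  intro i
  unfold genM
  rw [Con.lift_mk']
  simp [f]

theorem r_T (r : cgM.Quotient →* cgN.Quotient) (hr : ∀ i, r (genM i) = genN i) (i : Fin 4) :
    r (val genM (T i)) = genN i := by
  have h1 : ∀ t, r (val genM t) = val genN t := by
    intro t
    induction t with
    | nil => simp [val]
    | cons i t ih =>
      simp only [val, List.map_cons, List.prod_cons, map_mul, hr] at ih ⊢
      rw [ih]
  rw [h1]
  have e1 : genN 0 * genN 2 = 1 := presN.ax
  have e2 : genN 1 * genN 2 = 1 := presN.bx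
  have e3 : genN 0 * genN 3 = 1 := presN.ay
  have v1 : val genN [0, 2] = 1 := by simpa [val] using e1
  have v2 : val genN [1, 2] = 1 := by simpa [val] using e2
  have v3 : val genN [0, 3] = 1 := by simpa [val] using e3
  have v4 : val genN w = 1 := by
    rw [val_w, e1, e2, e3]
    simp [pal]
  fin_cases i
  · simp [T, val]
  · change val genN ([0, 2] ++ ([0, 2] ++ w ++ [0, 2] ++ [1, 2] ++ [0, 3]) ++ [1]) = genN 1
    simp only [val_append, v1, v2, v3, v4, one_mul]
    simp [val]
  · change val genN ([2] ++ ([1, 2] ++ [0, 3] ++ [1, 2] ++ [0, 2] ++ w)) = genN 2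
    simp only [val_append, v1, v2, v3, v4, mul_one]
    simp [val]
  · change val genN ([3] ++ ([1, 2] ++ [0, 2] ++ w ++ [0, 2] ++ [1, 2])) = genN 3
    simp only [val_append, v1, v2, v4, mul_one]
    simp [val]

/-! ### the reduction -/

/-- translation of words with variables -/
def tr (t : List (Fin 4 ⊕ ℕ)) : List (Fin 4 ⊕ ℕ) :=
  t.flatMap (fun z => Sum.casesOn z (fun i => (T i).map Sum.inl) (fun n => [Sum.inr n]))

theorem tr_val {M : Type} [Monoid M] (gen : Fin 4 → M) (σ : ℕ → M) (t : List (Fin 4 ⊕ ℕ)) :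
    ((tr t).map (Sum.elim gen σ)).prod =
      (t.map (Sum.elim (fun i => val gen (T i)) σ)).prod := by
  induction t with
  | nil => rfl
  | cons z t ih =>
    have : tr (z :: t) = (Sum.casesOn z (fun i => (T i).map Sum.inl) (fun n => [Sum.inr n]) :
      List (Fin 4 ⊕ ℕ)) ++ tr t := rfl
    rw [this, List.map_append, List.prod_append, ih, List.map_cons, List.prod_cons]
    congr 1
    rcases z with i | n
    · simp only [List.map_map, Sum.elim_inl, val]
      congr 1
    · simp

theorem map_val {M M' : Type} [Monoid M] [Monoid M'] (f : M →* M') (gen : Fin 4 → M)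
    (σ : ℕ → M) (t : List (Fin 4 ⊕ ℕ)) :
    f ((t.map (Sum.elim gen σ)).prod) = (t.map (Sum.elim (fun i => f (gen i))
      (fun n => f (σ n)))).prod := by
  induction t with
  | nil => simp
  | cons z t ih =>
    rw [List.map_cons, List.prod_cons, map_mul, ih, List.map_cons, List.prod_cons]
    congr 1
    rcases z with i | n <;> rfl

/-- translation of systems -/
def trS (S : List (List (Fin 4 ⊕ ℕ) × List (Fin 4 ⊕ ℕ))) :
    List (List (Fin 4 ⊕ ℕ) × List (Fin 4 ⊕ ℕ)) :=
  S.map (fun e => (tr e.1, tr e.2))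

theorem primrec_tr : Primrec tr := by
  unfold tr
  refine Primrec.list_flatMap Primrec.id ?_
  have h1 : Primrec (fun i : Fin 4 => ((T i).map Sum.inl : List (Fin 4 ⊕ ℕ))) :=
    Primrec.dom_finite _
  refine (Primrec.sumCasesOn (f := fun q : List (Fin 4 ⊕ ℕ) × (Fin 4 ⊕ ℕ) => q.2)
    (g := fun _ i => (T i).map Sum.inl) (h := fun _ n => [Sum.inr n]) Primrec.snd ?_ ?_)
  · exact h1.comp Primrec.snd
  · exact Primrec.list_cons.comp (Primrec.sumInr.comp Primrec.snd) (Primrec.const [])

theorem primrec_trS : Primrec trS := by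
  unfold trS
  refine Primrec.list_map Primrec.id ?_
  exact Primrec.pair (primrec_tr.comp (Primrec.fst.comp Primrec.snd))
    (primrec_tr.comp (Primrec.snd.comp Primrec.snd))

theorem sat_iff (S : List (List (Fin 4 ⊕ ℕ) × List (Fin 4 ⊕ ℕ))) :
    Sat genN S ↔ Sat genM (trS S) := by
  obtain ⟨s, hs⟩ := exists_s
  obtain ⟨r, hr⟩ := exists_r
  constructor
  · rintro ⟨σ, hσ⟩
    refine ⟨fun n => s (σ n), ?_⟩
    intro e he
    obtain ⟨e, he', rfl⟩ := List.mem_map.1 he
    have h1 := congrArg s (hσ e he')
    rw [map_val, map_val] at h1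
    simp only [tr_val, ← hs]
    exact h1
  · rintro ⟨σ, hσ⟩
    refine ⟨fun n => r (σ n), ?_⟩
    intro e he
    have h1 := hσ _ (List.mem_map_of_mem (f := fun e => (tr e.1, tr e.2)) he)
    simp only [tr_val] at h1
    have h2 := congrArg r h1
    rw [map_val, map_val] at h2
    simp only [r_T r hr] at h2
    exact h2

theorem satM_not_computable : ¬ ComputablePred (Sat genM) := by
  intro h
  apply satN_not_computable
  exact ComputablePred.computable_of_manyOneReducible ⟨trS, primrec_trS.to_comp, sat_iff⟩ h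

end Pool.Agent.W986.DW
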