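import Pool.Agent.W986.DW.Left
import Pool.Agent.H176R3.OneRel.Dfn

/-!
Arithmetic in the monoid `⟨a, b, x, y ∣ a x = b x = a y = 1⟩`.
-/

set_option autoImplicit false

namespace Pool.Agent.W986.DW

open Pool.Agent.H176R3.OneRel.Df

namespace Pres

variable {N : Type} [Monoid N] (p : Pres N)

theorem num_iff (u : N) : (∃ v, u * v = 1 ∧ u * p.a = p.a * u) ↔ ∃ n : ℕ, u = p.a ^ n := by
  constructor
  · rintro ⟨v, h1, h2⟩
    obtain ⟨l, rfl⟩ := p.exists_iR h1
    have e1 : p.iR l * p.a = p.iR (true :: l) := rfl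
    have e2 : p.a * p.iR l = p.iR (l ++ [true]) := by
      rw [iR_append]
      simp [iR, g]
    rw [e1, e2] at h2
    obtain ⟨n, rfl⟩ := comm_rep (l := l) (p.iR_inj h2).symm
    exact ⟨n, p.iR_rep n⟩
  · rintro ⟨n, rfl⟩
    refine ⟨p.x ^ n, ?_, ?_⟩
    · rw [← iR_rep, ← iL_rep, mul_eq_one_iff, forall₂_iff_get]
      refine ⟨by simp, ?_⟩
      intro q hq c d hc hd
      rw [List.getElem?_replicate_of_lt (by simpa using hq)] at hc
      cases hc
      exact Or.inl rfl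
    · rw [← pow_succ, ← pow_succ']

theorem numL {z : N} (hz : ∃ v, v * z = 1) (h : z * p.x = p.x * z) : ∃ n : ℕ, z = p.x ^ n := by
  obtain ⟨v, h1⟩ := hz
  obtain ⟨l, rfl⟩ := p.exists_iL h1
  have e1 : p.x * p.iL l = p.iL ([true] ++ l) := rfl
  have e2 : p.iL l * p.x = p.iL (l ++ [true]) := by
    rw [iL_append]
    simp [iL, Pres.h]
  rw [e1, e2] at h
  obtain ⟨n, rfl⟩ := comm_rep (l := l) (p.iL_inj h)
  exact ⟨n, p.iL_rep n⟩

theorem iR_mul_pow {l : List Bool} {k : ℕ} : p.iR l * p.x ^ k = 1 ↔ l.length = k := by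
  rw [← iL_rep, mul_eq_one_iff, forall₂_iff_get]
  constructor
  · intro h
    simpa using h.1
  · intro h
    refine ⟨by simpa using h, ?_⟩
    intro q hq c d hc hd
    rw [List.getElem?_replicate_of_lt (by omega)] at hd
    cases hd
    exact Or.inr rfl

theorem pow_mul_iL {l : List Bool} {k : ℕ} : p.a ^ k * p.iL l = 1 ↔ l.length = k := by
  rw [← iR_rep, mul_eq_one_iff, forall₂_iff_get]
  constructor
  · intro h
    simpa using h.1.symm
  · intro h
    refine ⟨by simpa using h.symm, ?_⟩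
    intro q hq c d hc hd
    rw [List.getElem?_replicate_of_lt (by simpa using hq)] at hc
    cases hc
    exact Or.inl rfl

theorem pow_mul_pow {m n : ℕ} : p.a ^ m * p.x ^ n = 1 ↔ m = n := by
  rw [← iR_rep, iR_mul_pow]
  simp

theorem pow_inj : Function.Injective (fun n : ℕ => p.a ^ n) := by
  intro m n h
  have h1 : p.a ^ m * p.x ^ n = 1 := by
    have : p.a ^ m = p.a ^ n := h
    rw [this]
    exact p.pow_mul_pow.2 rfl
  exact p.pow_mul_pow.1 h1

theorem iR_cw (m : ℕ) : p.iR (cw m) = p.a ^ m * p.b := by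
  unfold cw
  rw [iR, iR_rep]
  rfl

theorem iL_dw (m : ℕ) : p.iL (dw m) = p.x ^ m * p.x * p.y := by
  unfold dw
  rw [iL_append, iL_rep, pow_succ]
  simp [iL, h]

theorem iR_flat (w : List Bool) (k : ℕ) : p.iR (List.replicate k w).flatten = p.iR w ^ k := by
  induction k with
  | zero => simp [iR]
  | succ k ih => rw [List.replicate_succ, List.flatten_cons, iR_append, ih, pow_succ]

theorem iL_flat (w : List Bool) (k : ℕ) : p.iL (List.replicate k w).flatten = p.iL w ^ k := by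
  induction k with
  | zero => simp [iL]
  | succ k ih => rw [List.replicate_succ, List.flatten_cons, iL_append, ih, pow_succ']

theorem flat_length (w : List Bool) (k : ℕ) :
    (List.replicate k w).flatten.length = k * w.length := by
  induction k with
  | zero => simp
  | succ k ih =>
    rw [List.replicate_succ, List.flatten_cons, List.length_append, ih]
    ring

/-- the equations saying that the second numeral is the square of the successor of the first -/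
def SqE (u v z U Z Z' z' : N) : Prop :=
  (z * p.x = p.x * z ∧ u * z = 1) ∧ (U * (u * p.b) = (u * p.b) * U ∧ Z' * Z = 1) ∧
  (Z * (z * p.x * p.y) = (z * p.x * p.y) * Z ∧ (U * u) * (Z * z * p.x) = 1) ∧
  (z' * p.x = p.x * z' ∧ U * z' = 1 ∧ v * z' = 1)

/-- the relation -/
def Sq (u v : N) : Prop := ∃ c : Fin 5 → N, p.SqE u v (c 0) (c 1) (c 2) (c 3) (c 4)

theorem sq_iff (m n : ℕ) : p.Sq (p.a ^ m) (p.a ^ n) ↔ n = (m + 1) * (m + 1) := by
  constructor
  · rintro ⟨c, ⟨h1, h2⟩, ⟨h3, h4⟩, ⟨h5, h6⟩, h7, h8, h9⟩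
    generalize c 0 = z at *
    generalize c 1 = U at *
    generalize c 2 = Z at *
    generalize c 3 = Z' at *
    generalize c 4 = z' at *
    obtain ⟨j, rfl⟩ := p.numL ⟨_, h2⟩ h1
    have hj : m = j := p.pow_mul_pow.1 h2
    subst hj
    obtain ⟨l, rfl⟩ := p.exists_iR (u := U) (v := p.a ^ m * (Z * p.x ^ m * p.x))
      (by rw [← mul_assoc]; exact h6)
    obtain ⟨l', rfl⟩ := p.exists_iL h4
    obtain ⟨k, rfl⟩ := p.numL ⟨_, h8⟩ h7
    have e1 : l ++ cw m = cw m ++ l := by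
      rw [← iR_cw, ← iR_append, ← iR_append] at h3
      exact (p.iR_inj h3).symm
    have e2 : l' ++ dw m = dw m ++ l' := by
      rw [← iL_dw, ← iL_append, ← iL_append] at h5
      exact p.iL_inj h5
    have e3 : p.iR l * p.a ^ m = p.iR (List.replicate m true ++ l) := by
      rw [iR_append, iR_rep]
    have e4 : p.iL l' * p.x ^ m * p.x = p.iL (l' ++ List.replicate (m + 1) true) := by
      rw [iL_append, iL_rep, pow_succ, mul_assoc]
    rw [e3, e4, mul_eq_one_iff, cancel_iff m e1 e2] at h6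
    have e5 := p.iR_mul_pow.1 h8
    have e6 := p.pow_mul_pow.1 h9
    rw [e6, ← e5, h6.1]
  · rintro rfl
    have c1 : (List.replicate (m + 1) (cw m)).flatten ++ cw m =
        cw m ++ (List.replicate (m + 1) (cw m)).flatten := by
      apply p.iR_inj
      rw [iR_append, iR_append, iR_flat, ← pow_succ, ← pow_succ']
    have c2 : (List.replicate m (dw m)).flatten ++ dw m =
        dw m ++ (List.replicate m (dw m)).flatten := by
      apply p.iL_inj
      rw [iL_append, iL_append, iL_flat, ← pow_succ, ← pow_succ']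
    have l1 : (List.replicate (m + 1) (cw m)).flatten.length = (m + 1) * (m + 1) := by
      rw [flat_length, cw_length]
    have l2 : (List.replicate m (dw m)).flatten.length = m * (m + 2) := by
      rw [flat_length, dw_length]
    refine ⟨![p.x ^ m, p.iR (List.replicate (m + 1) (cw m)).flatten,
      p.iL (List.replicate m (dw m)).flatten, p.a ^ (m * (m + 2)), p.x ^ ((m + 1) * (m + 1))],
      ⟨?_, ?_⟩, ⟨?_, ?_⟩, ⟨?_, ?_⟩, ?_, ?_, ?_⟩
    · change p.x ^ m * p.x = p.x * p.x ^ m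
      rw [← pow_succ, ← pow_succ']
    · exact p.pow_mul_pow.2 rfl
    · change p.iR _ * (p.a ^ m * p.b) = (p.a ^ m * p.b) * p.iR _
      rw [← iR_cw, ← iR_append, ← iR_append, c1]
    · change p.a ^ (m * (m + 2)) * p.iL _ = 1
      exact p.pow_mul_iL.2 l2
    · change p.iL _ * (p.x ^ m * p.x * p.y) = (p.x ^ m * p.x * p.y) * p.iL _
      rw [← iL_dw, ← iL_append, ← iL_append, c2]
    · change (p.iR _ * p.a ^ m) * (p.iL _ * p.x ^ m * p.x) = 1
      rw [← iR_rep, ← iR_append, mul_assoc (p.iL _), ← pow_succ, ← iL_rep, ← iL_append,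
        mul_eq_one_iff, cancel_iff m c1 c2]
      exact ⟨l1, l2⟩
    · change p.x ^ ((m + 1) * (m + 1)) * p.x = p.x * p.x ^ ((m + 1) * (m + 1))
      rw [← pow_succ, ← pow_succ']
    · exact p.iR_mul_pow.2 l1
    · exact p.pow_mul_pow.2 rfl

/-- the relation `product` -/
def Mu (u v w : N) : Prop :=
  ((∃ n : ℕ, u = p.a ^ n) ∧ (∃ n : ℕ, v = p.a ^ n) ∧ (∃ n : ℕ, w = p.a ^ n)) ∧
  ∃ c : Fin 3 → N, ((∃ n : ℕ, c 0 = p.a ^ n) ∧ (∃ n : ℕ, c 1 = p.a ^ n) ∧
    (∃ n : ℕ, c 2 = p.a ^ n)) ∧ (p.Sq u (c 0) ∧ p.Sq v (c 1) ∧ p.Sq (u * v) (c 2)) ∧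
    w * w * (c 0 * c 1) = c 2 * p.a

theorem mu_iff (u v w : N) : p.Mu u v w ↔
    ∃ m n : ℕ, u = p.a ^ m ∧ v = p.a ^ n ∧ w = p.a ^ (m * n) := by
  constructor
  · rintro ⟨⟨⟨m, rfl⟩, ⟨n, rfl⟩, ⟨k, rfl⟩⟩, c, ⟨⟨r, h1⟩, ⟨s, h2⟩, ⟨t, h3⟩⟩, ⟨h4, h5, h6⟩, h7⟩
    rw [h1] at h4 h7
    rw [h2] at h5 h7
    rw [h3] at h6 h7
    rw [← pow_add] at h6
    rw [← pow_add, ← pow_add, ← pow_add, ← pow_succ] at h7
    have e1 := (p.sq_iff _ _).1 h4
    have e2 := (p.sq_iff _ _).1 h5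
    have e3 := (p.sq_iff _ _).1 h6
    have e4 := p.pow_inj h7
    refine ⟨m, n, rfl, rfl, ?_⟩
    have : k = m * n := by
      subst e1 e2 e3
      nlinarith
    rw [this]
  · rintro ⟨m, n, rfl, rfl, rfl⟩
    refine ⟨⟨⟨m, rfl⟩, ⟨n, rfl⟩, ⟨m * n, rfl⟩⟩, ![p.a ^ ((m + 1) * (m + 1)),
      p.a ^ ((n + 1) * (n + 1)), p.a ^ ((m + n + 1) * (m + n + 1))], ⟨⟨_, rfl⟩, ⟨_, rfl⟩,
      ⟨_, rfl⟩⟩, ⟨?_, ?_, ?_⟩, ?_⟩
    · exact (p.sq_iff _ _).2 rfl
    · exact (p.sq_iff _ _).2 rfl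
    · rw [← pow_add]
      exact (p.sq_iff _ _).2 rfl
    · change p.a ^ (m * n) * p.a ^ (m * n) * (p.a ^ ((m + 1) * (m + 1)) *
        p.a ^ ((n + 1) * (n + 1))) = p.a ^ ((m + n + 1) * (m + n + 1)) * p.a
      rw [← pow_add, ← pow_add, ← pow_add, ← pow_succ]
      congr 1
      ring

section dfn

variable {A : Type} {gen : A → N} {ia ib ix iy : A}

theorem dfn_num (ha : gen ia = p.a) : Dfn1 gen (fun u => ∃ n : ℕ, u = p.a ^ n) := by
  unfold Dfn1
  refine Dfn.congr (P := fun a => ∃ y, a () * y = 1 ∧ a () * p.a = p.a * a ()) ?_ ?_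
  · refine Dfn.ex1 ?_
    beta_reduce
    have ta : ∀ {ι : Type}, TF gen (fun _ : ι → N => p.a) := fun {ι} => by
      rw [← ha]; exact TF.const ia
    refine Dfn.and ?_ ?_
    · exact Dfn.eq ((TF.proj _).mul (TF.proj _)) TF.one
    · exact Dfn.eq ((TF.proj _).mul ta) (ta.mul (TF.proj _))
  · intro a
    exact (p.num_iff (a ())).symm

theorem dfn_sq (hb : gen ib = p.b) (hx : gen ix = p.x) (hy : gen iy = p.y) :
    Dfn2 gen p.Sq := by
  have tb : ∀ {ι : Type}, TF gen (fun _ : ι → N => p.b) := fun {ι} => by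
    rw [← hb]; exact TF.const ib
  have tx : ∀ {ι : Type}, TF gen (fun _ : ι → N => p.x) := fun {ι} => by
    rw [← hx]; exact TF.const ix
  have ty : ∀ {ι : Type}, TF gen (fun _ : ι → N => p.y) := fun {ι} => by
    rw [← hy]; exact TF.const iy
  unfold Dfn2 Sq SqE
  refine Dfn.ex (κ := Fin 5) ?_
  beta_reduce
  refine Dfn.and (Dfn.and ?_ ?_) (Dfn.and (Dfn.and ?_ ?_) (Dfn.and (Dfn.and ?_ ?_)
    (Dfn.and ?_ (Dfn.and ?_ ?_))))
  · exact Dfn.eq ((TF.proj _).mul tx) (tx.mul (TF.proj _))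
  · exact Dfn.eq ((TF.proj _).mul (TF.proj _)) TF.one
  · exact Dfn.eq ((TF.proj _).mul ((TF.proj _).mul tb)) (((TF.proj _).mul tb).mul (TF.proj _))
  · exact Dfn.eq ((TF.proj _).mul (TF.proj _)) TF.one
  · exact Dfn.eq ((TF.proj _).mul (((TF.proj _).mul tx).mul ty))
      ((((TF.proj _).mul tx).mul ty).mul (TF.proj _))
  · exact Dfn.eq (((TF.proj _).mul (TF.proj _)).mul (((TF.proj _).mul (TF.proj _)).mul tx)) TF.one
  · exact Dfn.eq ((TF.proj _).mul tx) (tx.mul (TF.proj _))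
  · exact Dfn.eq ((TF.proj _).mul (TF.proj _)) TF.one
  · exact Dfn.eq ((TF.proj _).mul (TF.proj _)) TF.one

theorem dfn_mu (ha : gen ia = p.a) (hb : gen ib = p.b) (hx : gen ix = p.x) (hy : gen iy = p.y) :
    Dfn3 gen (fun u v w => ∃ m n : ℕ, u = gen ia ^ m ∧ v = gen ia ^ n ∧ w = gen ia ^ (m * n)) := by
  have ta : ∀ {ι : Type}, TF gen (fun _ : ι → N => p.a) := fun {ι} => by
    rw [← ha]; exact TF.const ia
  have hn := p.dfn_num ha
  have hs := p.dfn_sq hb hx hy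
  unfold Dfn3
  refine Dfn.congr (P := fun a : Fin 3 → N => p.Mu (a 0) (a 1) (a 2)) ?_ ?_
  · unfold Mu
    refine Dfn.and (Dfn.and (hn.ap (TF.proj _)) (Dfn.and (hn.ap (TF.proj _)) (hn.ap (TF.proj _)))) ?_
    refine Dfn.ex (κ := Fin 3) ?_
    beta_reduce
    refine Dfn.and (Dfn.and (hn.ap (TF.proj _)) (Dfn.and (hn.ap (TF.proj _)) (hn.ap (TF.proj _))))
      (Dfn.and (Dfn.and (hs.ap (TF.proj _) (TF.proj _)) (Dfn.and (hs.ap (TF.proj _) (TF.proj _))
      (hs.ap ((TF.proj _).mul (TF.proj _)) (TF.proj _)))) ?_)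
    exact Dfn.eq (((TF.proj _).mul (TF.proj _)).mul ((TF.proj _).mul (TF.proj _)))
      ((TF.proj _).mul ta)
  · intro a
    rw [ha]
    exact (p.mu_iff (a 0) (a 1) (a 2)).symm

/-- the copy of arithmetic -/
def arith (ha : gen ia = p.a) (hb : gen ib = p.b) (hx : gen ix = p.x) (hy : gen iy = p.y) :
    Arith gen where
  base := ia
  inj := by rw [ha]; exact p.pow_inj
  num := by rw [ha]; exact p.dfn_num ha
  mul := p.dfn_mu ha hb hx hy

end dfn

end Pres

end Pool.Agent.W986.DW
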