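import Mathlib

/-!
The monoid generated by `a, b, x, y` with `a x = b x = a y = 1`: right invertible elements are
words in `a, b`, left invertible elements are words in `x, y`.
-/

set_option autoImplicit false

namespace Pool.Agent.W986.DW

/-- a monoid presented by `a x = b x = a y = 1` -/
structure Pres (N : Type) [Monoid N] where
  a : N
  b : N
  x : N
  y : N
  ax : a * x = 1
  bx : b * x = 1
  ay : a * y = 1
  ind : ∀ P : N → Prop, P 1 → P a → P b → P x → P y → (∀ u v, P u → P v → P (u * v)) → ∀ u, P u
  lift : ∀ {T : Type} [Monoid T] (a' b' x' y' : T), a' * x' = 1 → b' * x' = 1 → a' * y' = 1 →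
    ∃ f : N →* T, f a = a' ∧ f b = b' ∧ f x = x' ∧ f y = y'

/-- pop any letter from the stack -/
def popAny : Option (List Bool) → Option (List Bool)
  | some (_ :: s) => some s
  | _ => none

/-- pop the letter `true` -/
def popTrue : Option (List Bool) → Option (List Bool)
  | some (true :: s) => some s
  | _ => none

/-- push a letter -/
def push (c : Bool) (o : Option (List Bool)) : Option (List Bool) := o.map (List.cons c)

namespace Pres

variable {N : Type} [Monoid N] (p : Pres N)

/-- the opposite presentation -/
def op : Pres Nᵐᵒᵖ where
  a := MulOpposite.op p.x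
  b := MulOpposite.op p.y
  x := MulOpposite.op p.a
  y := MulOpposite.op p.b
  ax := by rw [← MulOpposite.op_mul, p.ax]; rfl
  bx := by rw [← MulOpposite.op_mul, p.ay]; rfl
  ay := by rw [← MulOpposite.op_mul, p.bx]; rfl
  ind := by
    intro P h1 ha hb hx hy hm u
    have := p.ind (fun u => P (MulOpposite.op u)) h1 hx hy ha hb
      (fun u v hu hv => by rw [MulOpposite.op_mul]; exact hm _ _ hv hu)
    exact this u.unop
  lift := by
    intro T _ a' b' x' y' h1 h2 h3
    obtain ⟨f, fa, fb, fx, fy⟩ := p.lift (T := Tᵐᵒᵖ) (MulOpposite.op x') (MulOpposite.op y')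
      (MulOpposite.op a') (MulOpposite.op b')
      (by rw [← MulOpposite.op_mul, h1]; rfl) (by rw [← MulOpposite.op_mul, h3]; rfl)
      (by rw [← MulOpposite.op_mul, h2]; rfl)
    refine ⟨{ toFun := fun u => (f u.unop).unop, map_one' := ?_, map_mul' := ?_ }, ?_, ?_, ?_, ?_⟩
    · rw [MulOpposite.unop_one, map_one, MulOpposite.unop_one]
    · intro u v
      rw [MulOpposite.unop_mul, map_mul, MulOpposite.unop_mul]
    · simp [fx]
    · simp [fy]
    · simp [fa]
    · simp [fb]

/-- letters `a`, `b` -/
def g (c : Bool) : N := if c then p.a else p.b

/-- the element of a stack with the top at the head -/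
def iR : List Bool → N
  | [] => 1
  | c :: s => iR s * p.g c

theorem iR_append (s t : List Bool) : p.iR (t ++ s) = p.iR s * p.iR t := by
  induction t with
  | nil => simp [iR]
  | cons c t ih => simp only [List.cons_append, iR, ih, mul_assoc]

/-- a function as an element of the opposite of the monoid of self maps -/
def fn (h : Option (List Bool) → Option (List Bool)) : (Function.End (Option (List Bool)))ᵐᵒᵖ :=
  MulOpposite.op (show Function.End (Option (List Bool)) from h)

theorem fn_mul (h k : Option (List Bool) → Option (List Bool)) (e : ∀ o, k (h o) = o) :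
    fn h * fn k = 1 := by
  apply MulOpposite.unop_injective
  funext o
  exact e o

/-- the right action on stacks -/
theorem exists_act : ∃ f : N →* (Function.End (Option (List Bool)))ᵐᵒᵖ,
    f p.a = fn (push true) ∧ f p.b = fn (push false) ∧
    f p.x = fn popAny ∧ f p.y = fn popTrue := by
  refine p.lift _ _ _ _ ?_ ?_ ?_
  · refine fn_mul _ _ ?_
    intro o
    cases o <;> rfl
  · refine fn_mul _ _ ?_
    intro o
    cases o <;> rfl
  · refine fn_mul _ _ ?_
    intro o
    cases o <;> rfl

/-- the right action on stacks -/
noncomputable def act (u : N) (o : Option (List Bool)) : Option (List Bool) :=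
  (p.exists_act.choose u).unop o

theorem act_one (o : Option (List Bool)) : p.act 1 o = o := by
  unfold act; rw [map_one]; rfl

theorem act_mul (u v : N) (o : Option (List Bool)) : p.act (u * v) o = p.act v (p.act u o) := by
  unfold act; rw [map_mul]; rfl

theorem act_a (o : Option (List Bool)) : p.act p.a o = push true o := by
  unfold act; rw [p.exists_act.choose_spec.1]; rfl

theorem act_b (o : Option (List Bool)) : p.act p.b o = push false o := by
  unfold act; rw [p.exists_act.choose_spec.2.1]; rfl

theorem act_x (o : Option (List Bool)) : p.act p.x o = popAny o := by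
  unfold act; rw [p.exists_act.choose_spec.2.2.1]; rfl

theorem act_y (o : Option (List Bool)) : p.act p.y o = popTrue o := by
  unfold act; rw [p.exists_act.choose_spec.2.2.2]; rfl

theorem act_none (u : N) : p.act u none = none := by
  refine p.ind (fun u => p.act u none = none) ?_ ?_ ?_ ?_ ?_ ?_ u
  · rw [act_one]
  · rw [act_a]; rfl
  · rw [act_b]; rfl
  · rw [act_x]; rfl
  · rw [act_y]; rfl
  · intro u v hu hv
    rw [act_mul, hu, hv]

theorem act_some (u : N) : ∀ s t : List Bool, p.act u (some s) = some t →
    p.iR s * u = p.iR t := by
  refine p.ind (fun u => ∀ s t : List Bool, p.act u (some s) = some t →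
    p.iR s * u = p.iR t) ?_ ?_ ?_ ?_ ?_ ?_ u
  · intro s t h
    rw [act_one] at h
    cases h
    rw [mul_one]
  · intro s t h
    rw [act_a] at h
    cases h
    rfl
  · intro s t h
    rw [act_b] at h
    cases h
    rfl
  · intro s t h
    rw [act_x] at h
    rcases s with _ | ⟨c, s⟩
    · exact absurd h (by simp [popAny])
    · cases h
      cases c
      · simp [iR, g, mul_assoc, p.bx]
      · simp [iR, g, mul_assoc, p.ax]
  · intro s t h
    rw [act_y] at h
    rcases s with _ | ⟨c, s⟩
    · exact absurd h (by simp [popTrue])
    · cases c
      · exact absurd h (by simp [popTrue])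
      · cases h
        simp [iR, g, mul_assoc, p.ay]
  · intro u v hu hv s t h
    rw [act_mul] at h
    rcases hr : p.act u (some s) with _ | r
    · rw [hr, act_none] at h
      exact absurd h (by simp)
    · rw [hr] at h
      rw [← mul_assoc, hu s r hr, hv r t h]

theorem act_iR (l s : List Bool) : p.act (p.iR l) (some s) = some (l ++ s) := by
  induction l generalizing s with
  | nil => simp [iR, act_one]
  | cons c l ih =>
    simp only [iR, act_mul, ih, g]
    cases c
    · simp [act_b, push]
    · simp [act_a, push]

theorem iR_inj {s t : List Bool} (h : p.iR s = p.iR t) : s = t := by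
  have h1 := p.act_iR s []
  have h2 := p.act_iR t []
  rw [h, h2] at h1
  simpa using h1.symm

/-- right invertible elements are words in `a, b` -/
theorem exists_iR {u v : N} (h : u * v = 1) : ∃ l, u = p.iR l := by
  have h1 : p.act v (p.act u (some [])) = some [] := by
    rw [← act_mul, h, act_one]
  rcases hr : p.act u (some []) with _ | r
  · rw [hr, act_none] at h1
    exact absurd h1 (by simp)
  · refine ⟨r, ?_⟩
    have := p.act_some u [] r hr
    simpa [iR] using this

end Pres

end Pool.Agent.W986.DW
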