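import Pool.Agent.W986.DW.Core

/-!
Left invertible elements, and when a word in `a, b` times a word in `x, y` is one.
-/

set_option autoImplicit false

namespace Pool.Agent.W986.DW

/-- two letters cancel -/
def Mt (c d : Bool) : Prop := c = true ∨ d = true

namespace Pres

variable {N : Type} [Monoid N] (p : Pres N)

/-- letters `x`, `y` -/
def h (c : Bool) : N := if c then p.x else p.y

/-- words in `x`, `y` -/
def iL : List Bool → N
  | [] => 1
  | c :: s => p.h c * iL s

theorem iL_eq (l : List Bool) : p.iL l = (p.op.iR l).unop := by
  induction l with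
  | nil => rfl
  | cons c l ih =>
    simp only [iL, iR, MulOpposite.unop_mul, ← ih]
    congr 1
    cases c <;> rfl

theorem iL_append (s t : List Bool) : p.iL (s ++ t) = p.iL s * p.iL t := by
  induction s with
  | nil => simp [iL]
  | cons c s ih => simp only [List.cons_append, iL, ih, mul_assoc]

theorem iL_inj {s t : List Bool} (e : p.iL s = p.iL t) : s = t := by
  rw [iL_eq, iL_eq] at e
  exact p.op.iR_inj (MulOpposite.unop_injective e)

theorem exists_iL {u v : N} (e : v * u = 1) : ∃ l, u = p.iL l := by
  obtain ⟨l, hl⟩ := p.op.exists_iR (u := MulOpposite.op u) (v := MulOpposite.op v)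
    (by rw [← MulOpposite.op_mul, e]; rfl)
  refine ⟨l, ?_⟩
  rw [iL_eq, ← hl]
  rfl

theorem g_mul_h {c d : Bool} (e : Mt c d) : p.g c * p.h d = 1 := by
  rcases c with _ | _ <;> rcases d with _ | _
  · rcases e with e | e <;> cases e
  · exact p.bx
  · exact p.ay
  · exact p.ax

theorem act_iL (t : List Bool) : ∀ s : List Bool, p.act (p.iL t) (some s) = some [] →
    List.Forall₂ Mt s t := by
  induction t with
  | nil =>
    intro s e
    simp only [iL, act_one] at e
    cases e
    exact List.Forall₂.nil
  | cons d t ih =>
    intro s e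
    simp only [iL, act_mul, h] at e
    rcases d with _ | _
    · simp only [Bool.false_eq_true, if_false, act_y] at e
      rcases s with _ | ⟨c, s⟩
      · simp only [popTrue, act_none] at e
        exact absurd e (by simp)
      · rcases c with _ | _
        · simp only [popTrue, act_none] at e
          exact absurd e (by simp)
        · exact List.Forall₂.cons (Or.inl rfl) (ih s e)
    · simp only [if_true, act_x] at e
      rcases s with _ | ⟨c, s⟩
      · simp only [popAny, act_none] at e
        exact absurd e (by simp)
      · exact List.Forall₂.cons (Or.inr rfl) (ih s e)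

theorem mul_eq_one_iff (s t : List Bool) : p.iR s * p.iL t = 1 ↔ List.Forall₂ Mt s t := by
  constructor
  · intro e
    have e1 : p.act (p.iR s * p.iL t) (some []) = some [] := by rw [e, act_one]
    rw [act_mul, act_iR, List.append_nil] at e1
    exact p.act_iL t s e1
  · intro e
    induction e with
    | nil => simp [iR, iL]
    | @cons c d s t e1 _ ih =>
      simp only [iR, iL]
      rw [mul_assoc, ← mul_assoc (p.g c), p.g_mul_h e1, one_mul, ih]

theorem iR_rep (n : ℕ) : p.iR (List.replicate n true) = p.a ^ n := by
  induction n with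
  | zero => simp [iR]
  | succ n ih => rw [List.replicate_succ, iR, ih, pow_succ]; rfl

theorem iL_rep (n : ℕ) : p.iL (List.replicate n true) = p.x ^ n := by
  induction n with
  | zero => simp [iL]
  | succ n ih => rw [List.replicate_succ, iL, ih, pow_succ']; rfl

end Pres

/-! ### words -/

theorem comm_word {n j : ℕ} (hj : j < n) {w : List Bool} (hc : w.length = n)
    (hv : ∀ i, i < n → w[i]? = some (decide (i ≠ j))) {l : List Bool} (h : l ++ w = w ++ l) :
    n ∣ l.length ∧ ∀ q, q < l.length → l[q]? = some (decide (q % n ≠ j)) := by
  have hn : 0 < n := by omega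
  have key : ∀ q, q < l.length + n → (w ++ l)[q]? = some (decide (q % n ≠ j)) := by
    intro q
    induction q using Nat.strong_induction_on with
    | _ q ih =>
      intro hq
      by_cases h1 : q < n
      · rw [List.getElem?_append_left (by omega), hv q h1, Nat.mod_eq_of_lt h1]
      · have h2 := ih (q - n) (by omega) (by omega)
        rw [List.getElem?_append_right (by omega), hc]
        rw [← h, List.getElem?_append_left (by omega)] at h2
        rw [h2]
        congr 2
        rw [← Nat.mod_eq_sub_mod (by omega)]
  constructor
  · have h1 := key (l.length + j) (by omega)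
    rw [← h, List.getElem?_append_right (by omega)] at h1
    rw [show l.length + j - l.length = j by omega, hv j hj] at h1
    simp only [ne_eq, not_true_eq_false, decide_false, Option.some.injEq] at h1
    have h2 : (l.length + j) % n = j := by
      by_contra h3
      simp [h3] at h1
    have h3 : (l.length + j) % n = (0 + j) % n := by
      rw [h2, zero_add, Nat.mod_eq_of_lt hj]
    exact (Nat.modEq_zero_iff_dvd.1 (Nat.ModEq.add_right_cancel' j h3))
  · intro q hq
    have h1 := key q (by omega)
    rwa [← h, List.getElem?_append_left hq] at h1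

theorem comm_rep {l : List Bool} (h : l ++ [true] = [true] ++ l) : ∃ n, l = List.replicate n true := by
  refine ⟨l.length, ?_⟩
  apply List.ext_getElem?
  intro q
  by_cases hq : q < l.length
  · rw [List.getElem?_replicate_of_lt hq]
    have key : ∀ q, q < l.length + 1 → ([true] ++ l)[q]? = some true := by
      intro q
      induction q with
      | zero => intro _; rfl
      | succ q ih =>
        intro hq
        have h2 := ih (by omega)
        rw [← h, List.getElem?_append_left (by omega)] at h2
        rw [List.getElem?_append_right (by simp)]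
        simpa using h2
    have h1 := key q (by omega)
    rwa [← h, List.getElem?_append_left hq] at h1
  · rw [List.getElem?_eq_none (by omega), List.getElem?_eq_none (by simp; omega)]

/-- the word `b a^m` read as a stack: `false` then `m` times `true` -/
def cw (m : ℕ) : List Bool := false :: List.replicate m true

/-- the word `x^(m+1) y` -/
def dw (m : ℕ) : List Bool := List.replicate (m + 1) true ++ [false]

theorem cw_length (m : ℕ) : (cw m).length = m + 1 := by simp [cw]

theorem dw_length (m : ℕ) : (dw m).length = m + 2 := by simp [dw]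

theorem cw_get (m i : ℕ) (hi : i < m + 1) : (cw m)[i]? = some (decide (i ≠ 0)) := by
  rcases i with _ | i
  · rfl
  · simp only [cw, List.getElem?_cons_succ]
    rw [List.getElem?_replicate_of_lt (by omega)]
    simp

theorem dw_get (m i : ℕ) (hi : i < m + 2) : (dw m)[i]? = some (decide (i ≠ m + 1)) := by
  unfold dw
  by_cases h : i < m + 1
  · rw [List.getElem?_append_left (by simpa using h), List.getElem?_replicate_of_lt h]
    simp; omega
  · have : i = m + 1 := by omega
    subst this
    rw [List.getElem?_append_right (by simp)]
    simp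

/-- first word: letters `b` at the positions with `m + 1 ∣ q + 1` -/
theorem word1 (m : ℕ) {l : List Bool} (h : l ++ cw m = cw m ++ l) :
    (m + 1) ∣ l.length ∧ ∀ q, q < l.length + m →
      (List.replicate m true ++ l)[q]? = some (decide (¬ (m + 1) ∣ (q + 1))) := by
  obtain ⟨h1, h2⟩ := comm_word (n := m + 1) (j := 0) (by omega) (cw_length m)
    (fun i hi => cw_get m i hi) h
  refine ⟨h1, ?_⟩
  intro q hq
  by_cases hm : q < m
  · rw [List.getElem?_append_left (by simpa using hm), List.getElem?_replicate_of_lt hm]
    have : ¬ (m + 1) ∣ (q + 1) := fun hd => by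
      have := Nat.le_of_dvd (by omega) hd
      omega
    simp [this]
  · rw [List.getElem?_append_right (by simp; omega), List.length_replicate, h2 _ (by omega)]
    congr 2
    have e : q + 1 = (q - m) + (m + 1) := by omega
    rw [e, Nat.dvd_add_self_right, Nat.dvd_iff_mod_eq_zero]

/-- second word: letters `y` at the positions with `m + 2 ∣ q + 1` -/
theorem word2 (m : ℕ) {l : List Bool} (h : l ++ dw m = dw m ++ l) :
    (m + 2) ∣ l.length ∧ ∀ q, q < l.length + (m + 1) →
      (l ++ List.replicate (m + 1) true)[q]? = some (decide (¬ (m + 2) ∣ (q + 1))) := by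
  obtain ⟨h1, h2⟩ := comm_word (n := m + 2) (j := m + 1) (by omega) (dw_length m)
    (fun i hi => dw_get m i hi) h
  refine ⟨h1, ?_⟩
  intro q hq
  by_cases hm : q < l.length
  · rw [List.getElem?_append_left hm, h2 q hm]
    congr 2
    rw [Nat.dvd_iff_mod_eq_zero, Nat.add_mod, Nat.mod_eq_of_lt (show 1 < m + 2 by omega)]
    have := Nat.mod_lt q (show 0 < m + 2 by omega)
    by_cases hh : q % (m + 2) = m + 1
    · simp [hh]
    · have : (q % (m + 2) + 1) % (m + 2) = q % (m + 2) + 1 := Nat.mod_eq_of_lt (by omega)
      rw [this]
      simp [hh]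
  · rw [List.getElem?_append_right (by omega), List.getElem?_replicate_of_lt (by omega)]
    have : ¬ (m + 2) ∣ (q + 1) := fun hd => by
      have h3 : (m + 2) ∣ (q + 1 - l.length) := Nat.dvd_sub hd h1
      have := Nat.le_of_dvd (by omega) h3
      omega
    simp [this]

theorem forall₂_iff_get {s t : List Bool} : List.Forall₂ Mt s t ↔
    s.length = t.length ∧ ∀ q, q < s.length → ∀ c d, s[q]? = some c → t[q]? = some d → Mt c d := by
  rw [List.forall₂_iff_get]
  constructor
  · rintro ⟨h1, h2⟩
    refine ⟨h1, ?_⟩
    intro q hq c d hc hd
    have := h2 q hq (h1 ▸ hq)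
    rw [List.getElem?_eq_getElem hq] at hc
    rw [List.getElem?_eq_getElem (h1 ▸ hq)] at hd
    cases hc
    cases hd
    exact this
  · rintro ⟨h1, h2⟩
    refine ⟨h1, ?_⟩
    intro q hq hq'
    exact h2 q hq _ _ (List.getElem?_eq_getElem hq) (List.getElem?_eq_getElem hq')

/-- **the two periodic words cancel exactly when the total length is `(m+1)(m+2)`** -/
theorem cancel_iff (m : ℕ) {l l' : List Bool} (h : l ++ cw m = cw m ++ l)
    (h' : l' ++ dw m = dw m ++ l') :
    List.Forall₂ Mt (List.replicate m true ++ l) (l' ++ List.replicate (m + 1) true) ↔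
      l.length = (m + 1) * (m + 1) ∧ l'.length = m * (m + 2) := by
  obtain ⟨d1, w1⟩ := word1 m h
  obtain ⟨d2, w2⟩ := word2 m h'
  rw [forall₂_iff_get]
  have hcop : Nat.Coprime (m + 1) (m + 2) := by
    have : Nat.Coprime (m + 1) (m + 1 + 1) := by simp
    exact this
  simp only [List.length_append, List.length_replicate]
  constructor
  · rintro ⟨e1, e2⟩
    have hd1 : (m + 1) ∣ (l.length + (m + 1)) := (Nat.dvd_add_right d1).2 (dvd_refl _)
    have hd2 : (m + 2) ∣ (l'.length + (m + 2)) := (Nat.dvd_add_right d2).2 (dvd_refl _)
    have e3 : l.length + (m + 1) = l'.length + (m + 2) := by omega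
    have hd3 : (m + 1) * (m + 2) ∣ (l.length + (m + 1)) :=
      hcop.mul_dvd_of_dvd_of_dvd hd1 (e3 ▸ hd2)
    have hle := Nat.le_of_dvd (by omega) hd3
    have hpos : 0 < (m + 1) * (m + 2) := by positivity
    have heq : (m + 1) * (m + 2) = l.length + (m + 1) := by
      by_contra hne
      have hlt : (m + 1) * (m + 2) < l.length + (m + 1) := lt_of_le_of_ne hle hne
      have := e2 ((m + 1) * (m + 2) - 1) (by omega) _ _ (w1 _ (by omega)) (w2 _ (by omega))
      rw [Nat.sub_add_cancel hpos] at this
      simp [Mt] at this
    constructor
    · nlinarith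
    · nlinarith
  · rintro ⟨e1, e2⟩
    have e3 : l.length + (m + 1) = (m + 1) * (m + 2) := by rw [e1]; ring
    have e4 : l'.length + (m + 2) = (m + 1) * (m + 2) := by rw [e2]; ring
    refine ⟨by omega, ?_⟩
    intro q hq c d hc hd
    rw [w1 q (by omega)] at hc
    rw [w2 q (by omega)] at hd
    cases hc
    cases hd
    unfold Mt
    by_contra hcon
    simp only [not_or, decide_eq_true_eq, not_not] at hcon
    have h3 := hcop.mul_dvd_of_dvd_of_dvd hcon.1 hcon.2
    have := Nat.le_of_dvd (by omega) h3
    omega

end Pool.Agent.W986.DW
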